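import Pool.Graph.R_seed8.Y77.NK.ADJ
import Pool.Agent.H64.XS.Stm

/-!
# Project XS, module NRM: the case of a reducing subspace
-/

set_option autoImplicit false

namespace Pool.Agent.H76.XS

open MeasureTheory Set Metric Filter Topology
open scoped InnerProductSpace ENNReal NNReal ComplexConjugate
open Pool.Agent.Y283.NK (ct IsMul Repr)
open Pool.Agent.Q130.TR
open Pool.Agent.H50.SM
open Pool.Agent.H64.XS
open ContinuousLinearMap (adjoint)

lemma normal_mul {S : Type} [MeasurableSpace S] {μ : Measure S} {φ : S → ℂ}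
    {N : Lp ℂ 2 μ →L[ℂ] Lp ℂ 2 μ} (hN : IsMul φ N) (f : Lp ℂ 2 μ) :
    adjoint N (N f) = N (adjoint N f) := by
  have hN' := Pool.Agent.Y77.NK.isMul_adj hN
  apply Lp.ext
  filter_upwards [hN'.eq (N f), hN.eq f, hN.eq (adjoint N f), hN'.eq f] with s h1 h2 h3 h4
  rw [h1, h2, h3, h4]
  ring

theorem nrm (hFIN : S_FIN) : S_NRM := by
  intro S _ μ _ φ N K u v J H _ _ _ _ V B hD hdim hr
  -- the range of `K†` is in the range of `V`
  have hv : ∀ j, V (adjoint V (v j)) = v j := by
    intro j
    by_cases hj : j ∈ J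
    · exact hD.vJ j hj
    · rw [hD.v0 j hj, map_zero, map_zero]
  have hKa : Repr (adjoint K) v u := Pool.Agent.Y77.NK.repr_adj hD.rep
  have hK1 : ∀ y, V (adjoint V (adjoint K y)) = adjoint K y := by
    intro y
    have h1 := hKa.2.2 y
    have h2 := h1.mapL (V ∘L adjoint V)
    have h3 : HasSum (fun j => ⟪u j, y⟫_ℂ • v j) ((V ∘L adjoint V) (adjoint K y)) := by
      convert h2 using 2 with j
      rw [map_smul, ContinuousLinearMap.comp_apply, hv j]
    exact h3.unique h1
  have hN1 : ∀ x, V (adjoint V (adjoint N (V x))) = adjoint N (V x) := by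
    intro x
    have h1 : adjoint N (V x) = V (adjoint B x) - adjoint K (V x) := by
      have h2 : adjoint (N + K) (V x) = adjoint N (V x) + adjoint K (V x) := by
        rw [map_add]; rfl
      rw [hD.adj x, h2]
      abel
    rw [h1, map_sub, map_sub, hD.iso, hK1]
  have hBa : adjoint B = adjoint V ∘L adjoint (N + K) ∘L V := by
    ext1 x
    rw [ContinuousLinearMap.comp_apply, ContinuousLinearMap.comp_apply, ← hD.adj x, hD.iso]
  have hB : B = adjoint V ∘L (N + K) ∘L V := by
    have h1 := congrArg (fun A => adjoint A) hBa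
    simpa only [ContinuousLinearMap.adjoint_adjoint, ContinuousLinearMap.adjoint_comp,
      ContinuousLinearMap.comp_assoc] using h1
  set N' : H →L[ℂ] H := adjoint V ∘L N ∘L V with hN'
  set K' : H →L[ℂ] H := adjoint V ∘L K ∘L V with hK'
  have hB' : B = N' + K' := by
    rw [hB, hN', hK']
    ext1 x
    simp
  have hN'a : adjoint N' = adjoint V ∘L adjoint N ∘L V := by
    simp only [hN', ContinuousLinearMap.adjoint_adjoint, ContinuousLinearMap.adjoint_comp,
      ContinuousLinearMap.comp_assoc]
  have hnorm : IsStarNormal N' := by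
    constructor
    rw [Commute, SemiconjBy, ContinuousLinearMap.star_eq_adjoint, hN'a]
    ext1 x
    show adjoint V (adjoint N (V (adjoint V (N (V x))))) =
      adjoint V (N (V (adjoint V (adjoint N (V x)))))
    rw [hr, hN1, normal_mul hD.mul]
  have hbd : ∀ w : ℕ → Lp ℂ 2 μ, Summable (fun j => ‖w j‖ ^ 2) →
      Summable fun j => ‖adjoint V (w j)‖ ^ 2 := by
    intro w hw
    refine Summable.of_nonneg_of_le (fun j => by positivity) (fun j => ?_)
      (hw.mul_left (‖adjoint V‖ ^ 2))
    rw [← mul_pow]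
    exact pow_le_pow_left₀ (norm_nonneg _) ((adjoint V).le_opNorm _) 2
  have hrep : Repr K' (fun j => adjoint V (u j)) (fun j => adjoint V (v j)) := by
    refine ⟨hbd u hD.rep.1, hbd v hD.rep.2.1, fun f => ?_⟩
    have h1 : HasSum (fun j => adjoint V (⟪v j, V f⟫_ℂ • u j)) (K' f) :=
      (hD.rep.2.2 (V f)).mapL (adjoint V)
    convert h1 using 2 with j
    rw [map_smul, ContinuousLinearMap.adjoint_inner_left]
  rw [hB']
  exact hFIN H N' K' 1 hnorm _ _ hrep (one_mul _) (by rw [one_mul, mul_one]) hdim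

end Pool.Agent.H76.XS
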